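import Pool.Agent.Y922.KB.Stm

/-!
# The quotient of two holomorphic functions on an annulus
-/

set_option autoImplicit false

namespace Pool.Agent.Y409.KB

open Complex Metric MeasureTheory Set Filter Topology Pool.Agent.Y922.KB

theorem t_QUO : S_QUO := by
  classical
  intro ε f g hε hε2 hf hg hfg ⟨z1, hz1, hgz1⟩
  have hopen : IsOpen (Ann ε) :=
    (isOpen_lt continuous_const continuous_norm).inter (isOpen_lt continuous_norm continuous_const)
  have hsub : Ann ε ⊆ ball 0 1 := fun z hz => by
    rw [mem_ball_zero_iff]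
    exact hz.2
  have hgA : AnalyticOnNhd ℂ g (ball 0 1) := hg.analyticOnNhd isOpen_ball
  have hiso : ∀ z ∈ ball (0 : ℂ) 1, ∀ᶠ u in 𝓝[≠] z, g u ≠ 0 := by
    intro z hz
    rcases (hgA z hz).eventually_eq_zero_or_eventually_ne_zero with h | h
    · exfalso
      have h2 := hgA.eqOn_zero_of_preconnected_of_eventuallyEq_zero
        (convex_ball (0 : ℂ) 1).isPreconnected hz h
      exact hgz1 (h2 hz1)
    · exact h
  let w : ℂ → ℂ := fun z => if g z = 0 then limUnder (𝓝[≠] z) (fun u => f u / g u) else f z / g z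
  have hw0 : ∀ z, g z ≠ 0 → w z = f z / g z := fun z hz => if_neg hz
  have hw1 : ∀ z ∈ Ann ε, g z ≠ 0 → ‖w z‖ ≤ 1 := by
    intro z hz hgz
    rw [hw0 z hgz, norm_div]
    exact div_le_one_of_le₀ (hfg z hz) (norm_nonneg _)
  have hd : ∀ z ∈ Ann ε, DifferentiableAt ℂ w z := by
    intro z hz
    have hzb := hsub hz
    by_cases hgz : g z = 0
    · obtain ⟨s, hs1, hs2⟩ : ∃ s ∈ 𝓝 z, ∀ u ∈ s \ {z}, g u ≠ 0 := by
        have := eventually_nhdsWithin_iff.1 (hiso z hzb)
        exact ⟨_, this, fun u hu => hu.1 hu.2⟩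
      have hs : s ∩ Ann ε ∈ 𝓝 z := inter_mem hs1 (hopen.mem_nhds hz)
      have h1 : DifferentiableOn ℂ (Function.update (fun u => f u / g u) z
          (limUnder (𝓝[≠] z) (fun u => f u / g u))) (s ∩ Ann ε) := by
        refine Complex.differentiableOn_update_limUnder_of_bddAbove hs ?_ ?_
        · intro u hu
          have hub := hsub hu.1.2
          refine DifferentiableAt.differentiableWithinAt ?_
          exact ((hf u hub).differentiableAt (isOpen_ball.mem_nhds hub)).div
            ((hg u hub).differentiableAt (isOpen_ball.mem_nhds hub)) (hs2 u ⟨hu.1.1, hu.2⟩)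
        · refine ⟨1, ?_⟩
          rintro _ ⟨u, hu, rfl⟩
          have h2 := hw1 u hu.1.2 (hs2 u ⟨hu.1.1, hu.2⟩)
          rw [hw0 u (hs2 u ⟨hu.1.1, hu.2⟩)] at h2
          exact h2
      refine ((h1 z (mem_of_mem_nhds hs)).differentiableAt hs).congr_of_eventuallyEq ?_
      filter_upwards [hs] with u hu
      by_cases huz : u = z
      · subst huz
        simp only [w, if_pos hgz, Function.update_self]
      · rw [Function.update_of_ne huz, hw0 u (hs2 u ⟨hu.1, huz⟩)]
    · have h1 : ∀ᶠ u in 𝓝 z, g u ≠ 0 :=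
        ((hg z hzb).differentiableAt (isOpen_ball.mem_nhds hzb)).continuousAt.eventually_ne hgz
      have h2 : DifferentiableAt ℂ (fun u => f u / g u) z :=
        ((hf z hzb).differentiableAt (isOpen_ball.mem_nhds hzb)).div
          ((hg z hzb).differentiableAt (isOpen_ball.mem_nhds hzb)) hgz
      refine h2.congr_of_eventuallyEq ?_
      filter_upwards [h1] with u hu
      exact hw0 u hu
  refine ⟨w, fun z hz => (hd z hz).differentiableWithinAt, fun z hz => ?_, fun z hz => ?_⟩
  · by_cases hgz : g z = 0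
    · have h1 : Tendsto (fun u => ‖w u‖) (𝓝[≠] z) (𝓝 ‖w z‖) :=
        ((hd z hz).continuousAt.norm.tendsto).mono_left nhdsWithin_le_nhds
      refine le_of_tendsto h1 ?_
      filter_upwards [hiso z (hsub hz), mem_nhdsWithin_of_mem_nhds (hopen.mem_nhds hz)] with u hu hu'
      exact hw1 u hu' hu
    · exact hw1 z hz hgz
  · by_cases hgz : g z = 0
    · have h1 := hfg z hz
      rw [hgz, norm_zero] at h1
      rw [hgz, mul_zero]
      exact norm_le_zero_iff.1 h1
    · rw [hw0 z hgz, div_mul_cancel₀ _ hgz]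

end Pool.Agent.Y409.KB
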